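import Pool.Agent.DualAP.Linear

/-!
A bound that is linear in `lam` for the approximation property of the dual.

Definitions used (file `Pool/Agent/DualAP/Defs.lean`):
* `HasAP 𝕜 X lam`: the `lam`-approximation property of `X`;
* `dualNorm Γ β f = ‖f‖ + 4 β dist (f, Γ)` on the dual of `E`;
* `newNorm Γ β x = sup {|f x| : dualNorm Γ β f ≤ 1}` on `E`;
* `RenormedAP 𝕜 E lam`: for all finite-dimensional `Γ` and `β > 0` the space `E` with the norm
  `newNorm Γ β` has the `lam`-approximation property.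
-/

open Pool.Agent.DualAP

/-- If `E` has the `lam`-approximation property in all the renormings then its dual has the
`mu`-approximation property for every `mu ≥ 2 lam + 1`, and for every `mu` which is at least the
infimum of `t (lam + t (1 + 2 lam)) / ((1 + t) (t - (lam - 1)))` over `t > 0`, `t > lam - 1`. -/
theorem Pool.Agent.Results.MP_a5ef6c_an.LinearBound.result
    {𝕜 : Type*} [RCLike 𝕜] {E : Type*} [NormedAddCommGroup E] [NormedSpace 𝕜 E]
    (lam : ℝ) (hlam : 1 ≤ lam) (h : RenormedAP 𝕜 E lam) (mu : ℝ)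
    (hmu : 2 * lam + 1 ≤ mu ∨ ∀ mu' : ℝ, mu < mu' → ∃ t : ℝ, 0 < t ∧ lam - 1 < t ∧
      t * (lam + t * (1 + 2 * lam)) ≤ mu' * ((1 + t) * (t - (lam - 1)))) :
    HasAP 𝕜 (StrongDual 𝕜 E) mu :=
  linear_bound hlam h mu hmu
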