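import Pool.Agent.DualAP.Lp

/-!
A positive answer for every constant `lam`, for spaces containing complemented `ℓ_p`-sums of
copies of themselves, `p ≠ 2`.

Definitions used (file `Pool/Agent/DualAP/Defs.lean`):
* `HasAP 𝕜 X lam`: the `lam`-approximation property of `X`;
* `dualNorm Γ β f = ‖f‖ + 4 β dist (f, Γ)` on the dual of `E`;
* `newNorm Γ β x = sup {|f x| : dualNorm Γ β f ≤ 1}` on `E`;
* `RenormedAP 𝕜 E lam`: for all finite-dimensional `Γ` and `β > 0` the space `E` with the norm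
  `newNorm Γ β` has the `lam`-approximation property.
`PiLp p (fun _ : Fin n => E)` is Mathlib's `ℓ_p`-sum of `n` copies of `E`.
-/

open scoped ENNReal
open Pool.Agent.DualAP

/-- Let `1 ≤ p ≤ ∞`, `p ≠ 2`, and suppose that for every `n` and every `κ' > κ` there are
operators `j` from the `ℓ_p`-sum of `n` copies of `E` to `E` and `P` back with `P j = id` and
`‖j‖ ‖P‖ ≤ κ'`. If all renormings of `E` have the `lam`-approximation property then the dual
of `E` has the `κ lam`-approximation property. For `κ = 1` this is the answer asked for. -/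
theorem Pool.Agent.Results.MP_a5ef6c_an.LpSumSpaces.result
    {𝕜 : Type*} [RCLike 𝕜] {E : Type*} [NormedAddCommGroup E] [NormedSpace 𝕜 E]
    (p : ℝ≥0∞) [Fact (1 ≤ p)] (hp : p ≠ 2) (lam κ : ℝ) (hlam : 1 ≤ lam) (hκ : 1 ≤ κ)
    (hE : ∀ (n : ℕ) (κ' : ℝ), κ < κ' →
      ∃ (j : PiLp p (fun _ : Fin n => E) →L[𝕜] E) (P : E →L[𝕜] PiLp p (fun _ : Fin n => E)),
        ‖j‖ * ‖P‖ ≤ κ' ∧ ∀ y, P (j y) = y)
    (h : RenormedAP 𝕜 E lam) : HasAP 𝕜 (StrongDual 𝕜 E) (κ * lam) :=
  amplify_lp p hp hlam hκ hE h
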